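import Pool.Agent.helper38.VA.Spec

/-! Row EIG: rational eigenvalues of integer matrices. -/

set_option autoImplicit false

namespace Pool.Agent.VA

open Matrix Module Pool.Agent.PR Pool.Agent.H48SL

/-- the integers in `ℚ` -/
abbrev EIG_R : Subring ℚ := (Int.castRingHom ℚ).range

theorem EIG_std {n : ℕ} (b : SLZ n) (i j : Fin n) : stdM ℚ b i j ∈ EIG_R :=
  ⟨(b : Matrix (Fin n) (Fin n) ℤ) i j, rfl⟩

theorem EIG_gen (hCPN : CPN_stmt) {M : Type} [AddCommGroup M] [Module ℚ M] (P : M → Prop)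
    (e e' : M → M) (he : ∀ (s : ℚ) w, e (s • w) = s • e w)
    (he' : ∀ (s : ℚ) w, e' (s • w) = s • e' w) (v : M) (hinv : e' (e v) = v)
    (hP : ∀ w, P w → P (e w)) (hP' : ∀ w, P w → P (e' w)) (f : M → ℚ)
    (hf : ∀ (s : ℚ) w, f (s • w) = s * f w) (hfP : ∀ w, P w → f w ∈ EIG_R) (m : ℤ) (hm : m ≠ 0)
    (hv : P ((m : ℚ) • v)) (hfv : f v ≠ 0) (c : ℚ) (hc : e v = c • v) : c = 1 ∨ c = -1 := by
  have hc0 : c ≠ 0 := by
    rintro rfl
    rw [hc, he', zero_smul] at hinv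
    apply hfv
    rw [← hinv, ← zero_smul ℚ (0 : M), hf, zero_mul]
  have hc' : e' v = c⁻¹ • v := by
    rw [hc, he'] at hinv
    rw [eq_inv_smul_iff₀ hc0]
    exact hinv
  have h1 : ∀ k : ℕ, P (((m : ℚ) * c ^ k) • v) := by
    intro k
    induction k with
    | zero => rw [pow_zero, mul_one]; exact hv
    | succ k ih =>
      have h2 := hP _ ih
      rw [he, hc, smul_smul] at h2
      rw [pow_succ c k, ← mul_assoc]
      exact h2
  have h1' : ∀ k : ℕ, P (((m : ℚ) * c⁻¹ ^ k) • v) := by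
    intro k
    induction k with
    | zero => rw [pow_zero, mul_one]; exact hv
    | succ k ih =>
      have h2 := hP' _ ih
      rw [he', hc', smul_smul] at h2
      rw [pow_succ c⁻¹ k, ← mul_assoc]
      exact h2
  refine hCPN c (f v) m hc0 hfv hm fun i => ?_
  have key : ∀ s : ℚ, P (((m : ℚ) * s) • v) → ∃ z : ℤ, (m : ℚ) * (s * f v) = z := by
    intro s hs
    obtain ⟨z, hz⟩ := hfP _ hs
    refine ⟨z, ?_⟩
    rw [hf] at hz
    rw [← mul_assoc, ← hz]
    rfl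
  obtain ⟨k, rfl | rfl⟩ := Int.eq_nat_or_neg i
  · rw [zpow_natCast]
    exact key _ (h1 k)
  · rw [_root_.zpow_neg, zpow_natCast, ← inv_pow]
    exact key _ (h1' k)

theorem EIG_den {ι : Type} [Fintype ι] (v : ι → ℚ) :
    ∃ m : ℤ, m ≠ 0 ∧ ∀ j, (m : ℚ) * v j ∈ EIG_R := by
  classical
  refine ⟨∏ j, ((v j).den : ℤ), ?_, fun j => ?_⟩
  · exact Finset.prod_ne_zero_iff.2 fun j _ => by exact_mod_cast (v j).den_ne_zero
  · rw [← Finset.mul_prod_erase Finset.univ (fun j => ((v j).den : ℤ)) (Finset.mem_univ j)]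
    refine ⟨(∏ k ∈ Finset.univ.erase j, ((v k).den : ℤ)) * (v j).num, ?_⟩
    have h : ((v j).den : ℚ) * v j = (v j).num := by
      rw [mul_comm]
      exact Rat.mul_den_eq_num (v j)
    simp only [eq_intCast, Int.cast_mul, Int.cast_natCast]
    rw [mul_comm ((v j).den : ℚ), mul_assoc, h]

theorem EIG (hCPN : CPN_stmt) : EIG_stmt := by
  intro n b c
  refine ⟨fun v hv h => ?_, fun v hv h => ?_, fun X hX h => ?_⟩
  · obtain ⟨i₀, hi₀⟩ := Function.ne_iff.1 hv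
    obtain ⟨m, hm, hmv⟩ := EIG_den v
    refine EIG_gen hCPN (fun w : Fin n → ℚ => ∀ i, w i ∈ EIG_R) (fun w => stdM ℚ b *ᵥ w)
      (fun w => stdM ℚ b⁻¹ *ᵥ w) (fun s w => Matrix.mulVec_smul _ s w)
      (fun s w => Matrix.mulVec_smul _ s w) v ?_ ?_ ?_ (fun w => w i₀) (fun s w => rfl)
      (fun w hw => hw i₀) m hm hmv hi₀ c h
    · show stdM ℚ b⁻¹ *ᵥ (stdM ℚ b *ᵥ v) = v
      rw [Matrix.mulVec_mulVec, stdM_inv_mul, Matrix.one_mulVec]
    · intro w hw i
      simp only [Matrix.mulVec, dotProduct]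
      exact Subring.sum_mem _ fun j _ => Subring.mul_mem _ (EIG_std b i j) (hw j)
    · intro w hw i
      simp only [Matrix.mulVec, dotProduct]
      exact Subring.sum_mem _ fun j _ => Subring.mul_mem _ (EIG_std b⁻¹ i j) (hw j)
  · obtain ⟨i₀, hi₀⟩ := Function.ne_iff.1 hv
    obtain ⟨m, hm, hmv⟩ := EIG_den v
    refine EIG_gen hCPN (fun w : Fin n → ℚ => ∀ i, w i ∈ EIG_R) (fun w => w ᵥ* stdM ℚ b)
      (fun w => w ᵥ* stdM ℚ b⁻¹) (fun s w => Matrix.smul_vecMul s w _)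
      (fun s w => Matrix.smul_vecMul s w _) v ?_ ?_ ?_ (fun w => w i₀) (fun s w => rfl)
      (fun w hw => hw i₀) m hm hmv hi₀ c h
    · show (v ᵥ* stdM ℚ b) ᵥ* stdM ℚ b⁻¹ = v
      rw [Matrix.vecMul_vecMul, stdM_mul_inv, Matrix.vecMul_one]
    · intro w hw i
      simp only [Matrix.vecMul, dotProduct]
      exact Subring.sum_mem _ fun j _ => Subring.mul_mem _ (hw j) (EIG_std b j i)
    · intro w hw i
      simp only [Matrix.vecMul, dotProduct]
      exact Subring.sum_mem _ fun j _ => Subring.mul_mem _ (hw j) (EIG_std b⁻¹ j i)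
  · obtain ⟨i₀, j₀, h₀⟩ : ∃ i j, X i j ≠ 0 := by
      by_contra hcon
      push Not at hcon
      exact hX (Matrix.ext hcon)
    obtain ⟨m, hm, hmv⟩ := EIG_den (fun x : Fin n × Fin n => X x.1 x.2)
    have hcl : ∀ (g : SLZ n) (w : MQ n), (∀ i j, w i j ∈ EIG_R) → ∀ i j,
        (cj g w) i j ∈ EIG_R := by
      intro g w hw i j
      rw [cj_apply, Matrix.mul_apply]
      refine Subring.sum_mem _ fun k _ => Subring.mul_mem _ ?_ (EIG_std g⁻¹ k j)
      rw [Matrix.mul_apply]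
      exact Subring.sum_mem _ fun l _ => Subring.mul_mem _ (EIG_std g i l) (hw l k)
    refine EIG_gen hCPN (fun w : MQ n => ∀ i j, w i j ∈ EIG_R) (fun w => cj b w)
      (fun w => cj b⁻¹ w) (fun s w => map_smul _ s w)
      (fun s w => map_smul _ s w) X ?_ (hcl b) (hcl b⁻¹) (fun w => w i₀ j₀) (fun s w => rfl)
      (fun w hw => hw i₀ j₀) m hm (fun i j => hmv (i, j)) h₀ c h
    show cj b⁻¹ (cj b X) = X
    rw [← cj_mul, inv_mul_cancel, cj_one]
    rfl

end Pool.Agent.VA
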